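import Mathlib

-- part Pool.Agent.Lib.MP_e52bc6_co.Basic
section

open Finset

namespace Pool.Agent.Lib.MP_e52bc6_co

theorem even_card_of_invol {α : Type*} (s : Finset α) (g : α → α) (hg : ∀ a ∈ s, g a ∈ s)
    (hinv : ∀ a ∈ s, g (g a) = a) (hne : ∀ a ∈ s, g a ≠ a) : Even s.card := by
  have h := Finset.sum_involution (s := s) (f := fun _ => (1 : ZMod 2)) (fun a _ => g a)
    (fun _ _ => by decide) (fun a ha _ => hne a ha) (fun a ha => hg a ha) (fun a ha => hinv a ha)
  rw [Finset.sum_const, nsmul_eq_mul, mul_one] at h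
  exact (ZMod.natCast_eq_zero_iff_even).mp h

/-- A partition of `V` into triangles (the fibres of `τ`) and a perfect matching `σ` between
different triangles. -/
structure Str (V T : Type) [Fintype V] [DecidableEq T] where
  τ : V → T
  σ : V → V
  inv : ∀ v, σ (σ v) = v
  ne : ∀ v, τ (σ v) ≠ τ v
  fib : ∀ t, (univ.filter (fun v => τ v = t)).card = 3

variable {V T : Type} [Fintype V] [DecidableEq T]

def Str.graph (X : Str V T) : SimpleGraph V where
  Adj u v := (u ≠ v ∧ X.τ u = X.τ v) ∨ v = X.σ u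
  symm := ⟨by
    rintro u v (⟨h1, h2⟩ | h)
    · exact Or.inl ⟨h1.symm, h2.symm⟩
    · right; rw [h, X.inv]⟩
  loopless := ⟨by
    rintro u (⟨h1, _⟩ | h)
    · exact h1 rfl
    · exact X.ne u (by rw [← h])⟩

theorem Str.adj (X : Str V T) (u v : V) :
    X.graph.Adj u v ↔ (u ≠ v ∧ X.τ u = X.τ v) ∨ v = X.σ u := Iff.rfl

/-- connectivity at the level of triangles -/
def Str.Conn (X : Str V T) : Prop :=
  ∀ P : T → Prop, (∀ v, P (X.τ v) → P (X.τ (X.σ v))) → ∀ t t', P t → P t'

theorem Str.surj (X : Str V T) (t : T) : ∃ v, X.τ v = t := by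
  have : (univ.filter (fun v => X.τ v = t)).Nonempty := by
    rw [← card_pos, X.fib]; norm_num
  obtain ⟨v, hv⟩ := this
  exact ⟨v, (mem_filter.mp hv).2⟩

theorem Str.card_filter (X : Str V T) (A : Finset T) :
    (univ.filter (fun v => X.τ v ∈ A)).card = 3 * A.card := by
  rw [card_eq_sum_card_fiberwise (f := X.τ) (t := A) (by intro v hv; simpa using hv)]
  rw [sum_congr rfl (g := fun _ => 3), sum_const, smul_eq_mul, mul_comm]
  intro t ht
  rw [← X.fib t]
  congr 1
  ext v
  simp only [mem_filter, mem_univ, true_and]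
  exact ⟨fun h => h.2, fun h => ⟨h ▸ ht, h⟩⟩

theorem Str.card_eq (X : Str V T) [Fintype T] : Fintype.card V = 3 * Fintype.card T := by
  have := X.card_filter univ
  simpa using this

theorem Str.even_card (X : Str V T) [Fintype T] : Even (Fintype.card T) := by
  have h := even_card_of_invol (univ : Finset V) X.σ (by simp) (fun a _ => X.inv a)
    (fun a _ h => X.ne a (by rw [h]))
  rw [card_univ, X.card_eq] at h
  rcases Nat.even_mul.mp h with h | h
  · exact absurd h (by decide)
  · exact h

theorem Str.connected_iff (X : Str V T) [Nonempty V] : X.graph.Connected ↔ X.Conn := by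
  constructor
  · intro h P hP t t' ht
    obtain ⟨u, rfl⟩ := X.surj t
    obtain ⟨v, rfl⟩ := X.surj t'
    obtain ⟨w⟩ := h.preconnected u v
    induction w with
    | nil => exact ht
    | cons hadj w ih =>
      apply ih
      rcases hadj with ⟨_, h2⟩ | h2
      · rwa [← h2]
      · rw [h2]; exact hP _ ht
  · intro h
    refine ⟨fun u v => ?_⟩
    have key : ∀ a b, X.τ a = X.τ b → X.graph.Reachable a b := by
      intro a b hab
      by_cases e : a = b
      · rw [e]
      · exact SimpleGraph.Adj.reachable (Or.inl ⟨e, hab⟩)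
    have := h (fun t => ∀ w, X.τ w = t → X.graph.Reachable u w) ?_ (X.τ u) (X.τ v)
      (fun w hw => key _ _ hw.symm)
    · exact this v rfl
    · intro x hx w hw
      exact ((hx x rfl).trans (SimpleGraph.Adj.reachable (Or.inr rfl))).trans (key _ _ hw.symm)

theorem Str.ncard_neighborSet (X : Str V T) (v : V) : (X.graph.neighborSet v).ncard = 3 := by
  classical
  have : X.graph.neighborSet v =
      ↑(insert (X.σ v) ((univ.filter (fun u => X.τ u = X.τ v)).erase v)) := by
    ext u
    simp only [SimpleGraph.mem_neighborSet, X.adj, coe_insert, coe_erase, coe_filter, mem_univ,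
      true_and, Set.mem_insert_iff, Set.mem_sdiff, Set.mem_ofPred_eq, Set.mem_singleton_iff]
    constructor
    · rintro (⟨h1, h2⟩ | h)
      · exact Or.inr ⟨h2.symm, h1.symm⟩
      · exact Or.inl h
    · rintro (h | ⟨h1, h2⟩)
      · exact Or.inr h
      · exact Or.inl ⟨fun e => h2 e.symm, h1.symm⟩
  rw [this, Set.ncard_coe_finset, card_insert_of_notMem, card_erase_of_mem (by simp), X.fib]
  simp [X.ne v]

theorem Str.clawFree (X : Str V T) :
    IsEmpty (completeBipartiteGraph (Fin 1) (Fin 3) ↪g X.graph) := by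
  constructor
  intro f
  have hadj : ∀ i : Fin 3, X.graph.Adj (f (Sum.inl 0)) (f (Sum.inr i)) := by
    intro i; rw [f.map_adj_iff]; simp
  have hn : ∀ i j : Fin 3, ¬ X.graph.Adj (f (Sum.inr i)) (f (Sum.inr j)) := by
    intro i j; rw [f.map_adj_iff]; simp
  have hne : ∀ i j : Fin 3, i ≠ j → f (Sum.inr i) ≠ f (Sum.inr j) := by
    intro i j hij h
    exact hij (Sum.inr_injective (f.injective h))
  have key : ∀ i j : Fin 3, i ≠ j → f (Sum.inr i) = X.σ (f (Sum.inl 0)) ∨
      f (Sum.inr j) = X.σ (f (Sum.inl 0)) := by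
    intro i j hij
    rcases hadj i with ⟨_, h1⟩ | h1
    · rcases hadj j with ⟨_, h2⟩ | h2
      · exact absurd (Or.inl ⟨hne i j hij, h1.symm.trans h2⟩) (hn i j)
      · exact Or.inr h2
    · exact Or.inl h1
  rcases key 0 1 (by decide) with h | h
  · rcases key 1 2 (by decide) with h' | h'
    · exact hne 0 1 (by decide) (h.trans h'.symm)
    · exact hne 0 2 (by decide) (h.trans h'.symm)
  · rcases key 0 2 (by decide) with h' | h'
    · exact hne 1 0 (by decide) (h.trans h'.symm)
    · exact hne 1 2 (by decide) (h.trans h'.symm)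

theorem Str.tri (X : Str V T) {x y z : V} (hxy : X.graph.Adj x y) (hxz : X.graph.Adj x z)
    (hyz : X.graph.Adj y z) : X.τ x = X.τ y := by
  rcases hxy with ⟨_, h⟩ | h
  · exact h
  · exfalso
    have h1 : X.τ x = X.τ z := by
      rcases hxz with ⟨_, h'⟩ | h'
      · exact h'
      · exact absurd (h.trans h'.symm) hyz.ne
    have h2 : X.τ y = X.τ z := by
      rcases hyz with ⟨_, h'⟩ | h'
      · exact h'
      · rw [h, X.inv] at h'
        exact absurd h'.symm hxz.ne
    exact X.ne x (by rw [← h, h2, h1])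

theorem Str.diamondFree (X : Str V T) :
    IsEmpty ((⊤ : SimpleGraph (Fin 4)).deleteEdges {s(0, 1)} ↪g X.graph) := by
  constructor
  intro f
  have hadj : ∀ i j : Fin 4, i ≠ j → s(i, j) ≠ s(0, 1) → X.graph.Adj (f i) (f j) := by
    intro i j h1 h2; rw [f.map_adj_iff]; simp only [SimpleGraph.deleteEdges_adj]
    exact ⟨h1, h2⟩
  have hn : ¬ X.graph.Adj (f 0) (f 1) := by
    rw [f.map_adj_iff]; simp
  have h1 := X.tri (hadj 0 2 (by decide) (by decide)) (hadj 0 3 (by decide) (by decide))
    (hadj 2 3 (by decide) (by decide))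
  have h2 := X.tri (hadj 1 2 (by decide) (by decide)) (hadj 1 3 (by decide) (by decide))
    (hadj 2 3 (by decide) (by decide))
  exact hn (Or.inl ⟨fun h => absurd (f.injective h) (by decide), h1.trans h2.symm⟩)

/-- The local lower bound for a union of an odd number of triangles. -/
theorem Str.local_bound [DecidableEq V] (X : Str V T) (D : Finset V)
    (hD : ∀ v, ∃ u ∈ D, X.graph.Adj v u) (A : Finset T) (hA : Odd A.card) :
    A.card + 1 ≤ (D.filter (fun v => X.τ v ∈ A ∨ X.τ (X.σ v) ∈ A)).card := by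
  classical
  set U := univ.filter (fun v => X.τ v ∈ A) with hU
  have hUc : U.card = 3 * A.card := X.card_filter A
  set D1 := D.filter (fun v => X.τ v ∈ A) with hD1
  set D2 := D.filter (fun v => X.τ v ∉ A ∧ X.τ (X.σ v) ∈ A) with hD2
  have hsplit : (D.filter (fun v => X.τ v ∈ A ∨ X.τ (X.σ v) ∈ A)).card = D1.card + D2.card := by
    rw [← card_union_of_disjoint]
    · congr 1; ext v; simp only [hD1, hD2, mem_filter, mem_union]; tauto
    · rw [disjoint_left]; intro v h1 h2
      simp only [hD1, hD2, mem_filter] at h1 h2; tauto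
  rw [hsplit]
  choose dom hdomD hdomA using hD
  -- neighbourhoods
  let N : V → Finset V := fun d => U.filter (fun u => X.graph.Adj u d)
  have hN3 : ∀ d, (N d).card ≤ 3 := by
    intro d
    have h3 := X.ncard_neighborSet d
    rw [← h3, ← Set.ncard_coe_finset]
    apply Set.ncard_le_ncard _ (Set.toFinite _)
    intro u hu
    simp only [N, coe_filter, Set.mem_ofPred_eq] at hu
    exact hu.2.symm
  have hN1 : ∀ d, X.τ d ∉ A → N d ⊆ {X.σ d} := by
    intro d hd u hu
    simp only [N, hU, mem_filter, mem_univ, true_and] at hu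
    rcases hu.2 with ⟨_, h⟩ | h
    · exact absurd (h ▸ hu.1) hd
    · rw [mem_singleton, h, X.inv]
  have hcover : U ⊆ (D1.biUnion N) ∪ (D2.image X.σ) := by
    intro u hu
    have hu' : X.τ u ∈ A := (mem_filter.mp hu).2
    by_cases h : X.τ (dom u) ∈ A
    · apply mem_union_left
      exact mem_biUnion.mpr ⟨dom u, mem_filter.mpr ⟨hdomD u, h⟩, mem_filter.mpr ⟨hu, hdomA u⟩⟩
    · apply mem_union_right
      have : u = X.σ (dom u) := mem_singleton.mp (hN1 _ h (mem_filter.mpr ⟨hu, hdomA u⟩))
      exact mem_image.mpr ⟨dom u, mem_filter.mpr ⟨hdomD u, h, this ▸ hu'⟩, this.symm⟩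
  have hsum : ∑ d ∈ D1, (N d).card ≤ 3 * D1.card := by
    calc ∑ d ∈ D1, (N d).card ≤ ∑ d ∈ D1, 3 := sum_le_sum (fun d _ => hN3 d)
      _ = 3 * D1.card := by rw [sum_const, smul_eq_mul, mul_comm]
  have h1 : U.card ≤ (D1.biUnion N).card + D2.card :=
    (card_le_card hcover).trans ((card_union_le _ _).trans (Nat.add_le_add_left card_image_le _))
  have h2 : (D1.biUnion N).card ≤ ∑ d ∈ D1, (N d).card := card_biUnion_le
  by_contra hcon
  have hD2 : D2.card = 0 := by omega
  have hD1c : D1.card = A.card := by omega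
  have hD2e : D2 = ∅ := card_eq_zero.mp hD2
  -- every vertex of `D1` is dominated exactly once, inside `D1`
  have hdom1 : ∀ d ∈ D1, dom d ∈ D1 := by
    intro d hd
    have hd' : X.τ d ∈ A := (mem_filter.mp hd).2
    by_contra h
    have h' : X.τ (dom d) ∉ A := fun h' => h (mem_filter.mpr ⟨hdomD d, h'⟩)
    have hdU : d ∈ U := mem_filter.mpr ⟨mem_univ _, hd'⟩
    have : d = X.σ (dom d) := mem_singleton.mp (hN1 _ h' (mem_filter.mpr ⟨hdU, hdomA d⟩))
    have : dom d ∈ D2 := mem_filter.mpr ⟨hdomD d, h', this ▸ hd'⟩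
    rw [hD2e] at this
    exact notMem_empty _ this
  have hdisj : ∀ d ∈ D1, ∀ d' ∈ D1, ∀ u, u ∈ N d → u ∈ N d' → d = d' := by
    intro d hd d' hd' u hu hu'
    by_contra hne
    have hsub : D1.biUnion N ⊆ ((D1.erase d).biUnion N) ∪ ((N d).erase u) := by
      intro w hw
      obtain ⟨e, he, hwe⟩ := mem_biUnion.mp hw
      by_cases hed : e = d
      · by_cases hwu : w = u
        · apply mem_union_left
          exact mem_biUnion.mpr ⟨d', mem_erase.mpr ⟨fun h => hne h.symm, hd'⟩, hwu ▸ hu'⟩
        · apply mem_union_right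
          exact mem_erase.mpr ⟨hwu, hed ▸ hwe⟩
      · apply mem_union_left
        exact mem_biUnion.mpr ⟨e, mem_erase.mpr ⟨hed, he⟩, hwe⟩
    have h3 : ((D1.erase d).biUnion N).card ≤ 3 * (D1.erase d).card := by
      calc _ ≤ ∑ e ∈ D1.erase d, (N e).card := card_biUnion_le
        _ ≤ ∑ e ∈ D1.erase d, 3 := sum_le_sum (fun e _ => hN3 e)
        _ = _ := by rw [sum_const, smul_eq_mul, mul_comm]
    have h4 := (card_le_card hsub).trans (card_union_le _ _)
    rw [card_erase_of_mem hu] at h4
    rw [card_erase_of_mem hd] at h3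
    have h5 := hN3 d
    have h6 : 0 < (N d).card := card_pos.mpr ⟨u, hu⟩
    have h7 : 0 < D1.card := card_pos.mpr ⟨d, hd⟩
    omega
  have heven := even_card_of_invol D1 dom hdom1 ?_ (fun a _ => (hdomA a).ne')
  · rw [hD1c] at heven
    exact (Nat.not_even_iff_odd.mpr hA) heven
  · intro d hd
    have hdU : dom d ∈ U := mem_filter.mpr ⟨mem_univ _, (mem_filter.mp (hdom1 d hd)).2⟩
    exact hdisj _ (hdom1 _ (hdom1 d hd)) _ hd (dom d) (mem_filter.mpr ⟨hdU, hdomA _⟩)
      (mem_filter.mpr ⟨hdU, (hdomA d).symm⟩)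

/-- The global lower bound from a Tutte-Berge type labelling. -/
theorem Str.lower [DecidableEq V] [Fintype T] (X : Str V T) {ι : Type} [Fintype ι] [DecidableEq ι]
    (lab : T → Option ι) (hodd : ∀ j, Odd (univ.filter (fun t => lab t = some j)).card)
    (hsep : ∀ v i j, lab (X.τ v) = some i → lab (X.τ (X.σ v)) = some j → i = j)
    (D : Finset V) (hD : ∀ v, ∃ u ∈ D, X.graph.Adj v u) :
    Fintype.card T + Fintype.card ι ≤ D.card + (univ.filter (fun t => lab t = none)).card := by
  let A : ι → Finset T := fun j => univ.filter (fun t => lab t = some j)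
  let E : ι → Finset V := fun j => D.filter (fun v => X.τ v ∈ A j ∨ X.τ (X.σ v) ∈ A j)
  have h1 : ∀ j, (A j).card + 1 ≤ (E j).card := fun j => X.local_bound D hD (A j) (hodd j)
  have h2 : ∑ j, (E j).card ≤ D.card := by
    rw [← card_biUnion]
    · apply card_le_card
      intro v hv
      obtain ⟨j, _, hj⟩ := mem_biUnion.mp hv
      exact (mem_filter.mp hj).1
    · intro i _ j _ hij
      rw [Function.onFun, disjoint_left]
      intro v hi hj
      simp only [E, A, mem_filter, mem_univ, true_and] at hi hj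
      apply hij
      rcases hi.2 with hi | hi <;> rcases hj.2 with hj | hj
      · exact Option.some_injective _ (hi.symm.trans hj)
      · exact hsep v i j hi hj
      · exact (hsep v j i hj hi).symm
      · exact Option.some_injective _ (hi.symm.trans hj)
  have h3 : Fintype.card T = (univ.filter (fun t => lab t = none)).card + ∑ j, (A j).card := by
    rw [← card_univ, card_eq_sum_card_fiberwise (f := lab) (t := univ) (by simp),
      Fintype.sum_option]
  have h4 : ∑ j, ((A j).card + 1) ≤ ∑ j, (E j).card := sum_le_sum (fun j _ => h1 j)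
  rw [sum_add_distrib] at h4
  simp only [sum_const, card_univ, smul_eq_mul, mul_one] at h4
  omega

end Pool.Agent.Lib.MP_e52bc6_co
end

-- part Pool.Agent.Lib.MP_e52bc6_co.Upper
section

open Finset

namespace Pool.Agent.Lib.MP_e52bc6_co

variable {V T : Type} [Fintype V] [DecidableEq T]

theorem Str.count_a [Fintype T] (X : Str V T) {κ : Type} [Fintype κ] [DecidableEq κ]
    (lab : T → Option κ)
    (hsep : ∀ v i j, lab (X.τ v) = some i → lab (X.τ (X.σ v)) = some j → i = j) :
    4 * (univ.filter (fun j => Odd (univ.filter (fun t => lab t = some j)).card)).card ≤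
      Fintype.card T + 2 * (univ.filter (fun t => lab t = none)).card := by
  classical
  let A : κ → Finset T := fun j => univ.filter (fun t => lab t = some j)
  let O : κ → Finset V := fun j => univ.filter (fun v => X.τ v ∈ A j ∧ X.τ (X.σ v) ∉ A j)
  set J := univ.filter (fun j => Odd (univ.filter (fun t => lab t = some j)).card) with hJ
  set S := univ.filter (fun t => lab t = none) with hS
  have h1 : ∀ j ∈ J, 4 ≤ (A j).card + (O j).card := by
    intro j hj
    have hodd : Odd (A j).card := (mem_filter.mp hj).2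
    let I := univ.filter (fun v => X.τ v ∈ A j ∧ X.τ (X.σ v) ∈ A j)
    have hI : Even I.card := even_card_of_invol I X.σ
      (by intro a ha; simp only [I, mem_filter, mem_univ, true_and, X.inv] at ha ⊢; tauto)
      (fun a _ => X.inv a) (fun a _ h => X.ne a (by rw [h]))
    have hsum : I.card + (O j).card = 3 * (A j).card := by
      rw [← X.card_filter, ← card_union_of_disjoint]
      · congr 1; ext v; simp only [I, O, mem_filter, mem_union, mem_univ, true_and]; tauto
      · rw [disjoint_left]; intro v h1 h2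
        simp only [I, O, mem_filter, mem_univ, true_and] at h1 h2; tauto
    by_cases h : (A j).card = 1
    · have : I = ∅ := by
        rw [eq_empty_iff_forall_notMem]
        intro v hv
        simp only [I, mem_filter, mem_univ, true_and] at hv
        exact X.ne v (card_le_one.mp h.le _ hv.2 _ hv.1)
      rw [this] at hsum
      simp at hsum
      omega
    · obtain ⟨a, ha⟩ := hodd
      obtain ⟨b, hb⟩ := hI
      omega
  have h2 : ∑ j, (O j).card ≤ 3 * S.card := by
    rw [← X.card_filter, ← card_biUnion]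
    · apply card_le_card_of_injOn X.σ
      · intro v hv
        obtain ⟨j, _, hj⟩ := mem_biUnion.mp hv
        simp only [O, A, mem_filter, mem_univ, true_and] at hj
        simp only [hS, coe_filter, mem_filter, mem_univ, true_and, Set.mem_ofPred_eq]
        cases h : lab (X.τ (X.σ v)) with
        | none => rfl
        | some i => exact absurd (by rw [h, hsep v j i hj.1 h]) hj.2
      · intro a _ b _ h
        rw [← X.inv a, h, X.inv]
    · intro i _ j _ hij
      rw [Function.onFun, disjoint_left]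
      intro v hi hj
      simp only [O, A, mem_filter, mem_univ, true_and] at hi hj
      exact hij (Option.some_injective _ (hi.1.symm.trans hj.1))
  have h3 : Fintype.card T = S.card + ∑ j, (A j).card := by
    rw [← card_univ, card_eq_sum_card_fiberwise (f := lab) (t := univ) (by simp),
      Fintype.sum_option]
  have h4 : ∑ j ∈ J, 4 ≤ ∑ j ∈ J, ((A j).card + (O j).card) := sum_le_sum h1
  have h5 : ∑ j ∈ J, ((A j).card + (O j).card) ≤ ∑ j, ((A j).card + (O j).card) :=
    sum_le_sum_of_subset (subset_univ _)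
  have h6 : ∑ j, ((A j).card + (O j).card) = ∑ j, (A j).card + ∑ j, (O j).card := sum_add_distrib
  rw [sum_const, smul_eq_mul] at h4
  omega

theorem Str.count_b [Fintype T] (X : Str V T) (hc : X.Conn) {κ : Type} [Fintype κ] [DecidableEq κ]
    (lab : T → Option κ)
    (hsep : ∀ v i j, lab (X.τ v) = some i → lab (X.τ (X.σ v)) = some j → i = j) :
    (univ.filter (fun j => Odd (univ.filter (fun t => lab t = some j)).card)).card ≤
      2 * (univ.filter (fun t => lab t = none)).card + 1 := by
  classical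
  set J := univ.filter (fun j => Odd (univ.filter (fun t => lab t = some j)).card) with hJ
  set S := univ.filter (fun t => lab t = none) with hS
  rcases J.eq_empty_or_nonempty with hJe | ⟨j0, hj0⟩
  · rw [hJe]; simp
  have hne : ∀ j ∈ J, ∃ t, lab t = some j := by
    intro j hj
    have hodd := (mem_filter.mp hj).2
    obtain ⟨t, ht⟩ := card_pos.mp hodd.pos
    exact ⟨t, (mem_filter.mp ht).2⟩
  obtain ⟨t0, -⟩ := hne j0 hj0
  let node : T → T ⊕ κ := fun t => (lab t).elim (Sum.inl t) Sum.inr
  let nd : T → Set.range node := fun t => ⟨node t, t, rfl⟩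
  let K : SimpleGraph (Set.range node) :=
    { Adj := fun x y => x ≠ y ∧ ∃ v, nd (X.τ v) = x ∧ nd (X.τ (X.σ v)) = y
      symm := ⟨by
        rintro x y ⟨h, v, h1, h2⟩
        exact ⟨h.symm, X.σ v, h2, by rw [X.inv]; exact h1⟩⟩
      loopless := ⟨fun x h => h.1 rfl⟩ }
  have hK : K.Connected := by
    have : Nonempty (Set.range node) := ⟨nd t0⟩
    refine ⟨?_⟩
    rintro ⟨_, a, rfl⟩ ⟨_, b, rfl⟩
    refine hc (fun t => K.Reachable (nd a) (nd t)) ?_ a b (SimpleGraph.Reachable.refl _)
    intro v hv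
    by_cases e : nd (X.τ v) = nd (X.τ (X.σ v))
    · rwa [← e]
    · exact hv.trans (SimpleGraph.Adj.reachable ⟨e, v, rfl, rfl⟩)
  have h1 := hK.card_vert_le_card_edgeSet_add_one
  have h2 : Nat.card K.edgeSet ≤ 3 * S.card := by
    rw [← X.card_filter, Nat.card_coe_set_eq]
    have hsub : K.edgeSet ⊆ (fun v => s(nd (X.τ v), nd (X.τ (X.σ v)))) ''
        ↑(univ.filter (fun v => X.τ v ∈ S)) := by
      intro e he
      induction e using Sym2.ind with
      | _ x y =>
        obtain ⟨hxy, v, rfl, rfl⟩ := he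
        cases h : lab (X.τ v) with
        | none => exact ⟨v, by simp [hS, h], rfl⟩
        | some i =>
          cases h' : lab (X.τ (X.σ v)) with
          | none => exact ⟨X.σ v, by simp [hS, h'], by simp only [X.inv]; exact Sym2.eq_swap⟩
          | some j =>
            exfalso
            apply hxy
            apply Subtype.ext
            simp only [nd, node, h, h', Option.elim, hsep v i j h h']
    calc K.edgeSet.ncard ≤ _ := Set.ncard_le_ncard hsub (Set.toFinite _)
      _ ≤ _ := Set.ncard_image_le (Set.toFinite _)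
      _ = _ := Set.ncard_coe_finset _
  have h3 : S.card + J.card ≤ Nat.card (Set.range node) := by
    rw [Nat.card_coe_set_eq, ← card_disjSum, ← Set.ncard_coe_finset]
    apply Set.ncard_le_ncard _ (Set.toFinite _)
    rintro (t | j) h
    · have : lab t = none := by simpa [hS] using h
      exact ⟨t, by simp [node, this]⟩
    · have : j ∈ J := by simpa using h
      obtain ⟨t, ht⟩ := hne j this
      exact ⟨t, by simp [node, ht]⟩
  omega

/-- The auxiliary graph: the triangles together with `d` universal vertices. -/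
def Str.aux (X : Str V T) (d : ℕ) : SimpleGraph (T ⊕ Fin d) where
  Adj x y := x ≠ y ∧ ∀ t t', x = Sum.inl t → y = Sum.inl t' →
    ∃ v, X.τ v = t ∧ X.τ (X.σ v) = t'
  symm := ⟨by
    rintro x y ⟨h1, h2⟩
    refine ⟨h1.symm, fun t t' e e' => ?_⟩
    obtain ⟨v, h3, h4⟩ := h2 t' t e' e
    exact ⟨X.σ v, h4, by rw [X.inv]; exact h3⟩⟩
  loopless := ⟨fun x h => h.1 rfl⟩

theorem Str.aux_matching [Fintype T] (X : Str V T) (hc : X.Conn) :
    ∃ M : (X.aux (2 * ((Fintype.card T + 2) / 12))).Subgraph, M.IsPerfectMatching := by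
  classical
  set d := 2 * ((Fintype.card T + 2) / 12) with hd
  rw [SimpleGraph.tutte]
  intro U hU
  unfold SimpleGraph.IsTutteViolator at hU
  set Y := ((⊤ : (X.aux d).Subgraph).deleteVerts U).coe with hY
  have hYadj : ∀ a b, Y.Adj a b ↔ (X.aux d).Adj a.1 b.1 := by
    intro a b
    have ha := a.2
    have hb := b.2
    simp only [SimpleGraph.Subgraph.deleteVerts_verts, SimpleGraph.Subgraph.verts_top,
      Set.mem_sdiff, Set.mem_univ, true_and] at ha hb
    simp [hY, ha, hb]
  have hmem : ∀ x, x ∈ ((⊤ : (X.aux d).Subgraph).deleteVerts U).verts ↔ x ∉ U := by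
    intro x; simp
  have hpar := Y.odd_ncard_oddComponents
  have hcardW : Nat.card ((⊤ : (X.aux d).Subgraph).deleteVerts U).verts + U.ncard =
      Fintype.card T + d := by
    rw [Nat.card_coe_set_eq]
    have : ((⊤ : (X.aux d).Subgraph).deleteVerts U).verts = Uᶜ := by ext x; simp
    rw [this, add_comm, Set.ncard_add_ncard_compl]
    simp
  obtain ⟨N2, hN2⟩ := X.even_card
  by_cases hall : ∀ j, Sum.inr j ∈ U
  · let lab : T → Option Y.ConnectedComponent := fun t =>
      if h : Sum.inl t ∈ U then none else some (Y.connectedComponentMk ⟨Sum.inl t, (hmem _).mpr h⟩)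
    have hsep : ∀ v i j, lab (X.τ v) = some i → lab (X.τ (X.σ v)) = some j → i = j := by
      intro v i j h1 h2
      simp only [lab] at h1 h2
      split_ifs at h1 h2 with e1 e2
      rw [← Option.some_injective _ h1, ← Option.some_injective _ h2]
      apply SimpleGraph.ConnectedComponent.connectedComponentMk_eq_of_adj
      rw [hYadj]
      refine ⟨fun e => X.ne v (Sum.inl_injective e).symm, ?_⟩
      intro t t' e e'
      exact ⟨v, Sum.inl_injective e, Sum.inl_injective e'⟩
    have ha := X.count_a lab hsep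
    have hb := X.count_b hc lab hsep
    have hq : (univ.filter (fun j => Odd (univ.filter (fun t => lab t = some j)).card)).card =
        Y.oddComponents.ncard := by
      rw [← Set.ncard_coe_finset]
      congr 1
      ext C
      simp only [coe_filter, mem_univ, true_and, Set.mem_ofPred_eq]
      have : (univ.filter (fun t => lab t = some C)).card = C.supp.ncard := by
        rw [← Set.ncard_coe_finset, ← Set.ncard_image_of_injective _ (Sum.inl_injective (β := Fin d)),
          ← Set.ncard_image_of_injective C.supp Subtype.val_injective]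
        congr 1
        ext x
        constructor
        · rintro ⟨t, ht, rfl⟩
          simp only [coe_filter, mem_univ, true_and, Set.mem_ofPred_eq, lab] at ht
          split_ifs at ht with e
          exact ⟨⟨Sum.inl t, (hmem _).mpr e⟩, Option.some_injective _ ht, rfl⟩
        · rintro ⟨⟨x, hx⟩, hC, rfl⟩
          rcases x with t | j
          · refine ⟨t, ?_, rfl⟩
            simp only [coe_filter, mem_univ, true_and, Set.mem_ofPred_eq, lab]
            rw [dif_neg ((hmem _).mp hx)]
            exact congrArg some hC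
          · exact absurd (hall j) ((hmem _).mp hx)
      rw [this]
    have hs : U.ncard = (univ.filter (fun t => lab t = none)).card + d := by
      have : U = ↑((univ.filter (fun t => lab t = none)).disjSum (univ : Finset (Fin d))) := by
        ext x
        rcases x with t | j
        · simp [lab]
        · simp [hall j]
      refine (congrArg Set.ncard this).trans ?_
      rw [Set.ncard_coe_finset, card_disjSum]
      simp
    rw [hq] at ha hb
    rw [Nat.odd_iff, Nat.odd_iff] at hpar
    omega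
  · push Not at hall
    obtain ⟨j, hj⟩ := hall
    have hpre : Y.Preconnected := by
      have key : ∀ a, Y.Reachable ⟨Sum.inr j, (hmem _).mpr hj⟩ a := by
        intro a
        by_cases e : (⟨Sum.inr j, (hmem _).mpr hj⟩ : ((⊤ : (X.aux d).Subgraph).deleteVerts U).verts) = a
        · rw [e]
        · apply SimpleGraph.Adj.reachable
          rw [hYadj]
          exact ⟨fun h => e (Subtype.ext h), fun t t' h => by cases h⟩
      exact fun a b => (key a).symm.trans (key b)
    have hsub := hpre.subsingleton_connectedComponent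
    have hle : Y.oddComponents.ncard ≤ 1 :=
      (Set.ncard_le_one (Set.toFinite _)).mpr (fun a _ b _ => Subsingleton.elim a b)
    rw [Nat.odd_iff, Nat.odd_iff] at hpar
    omega

theorem Str.upper [Fintype T] (X : Str V T) (hc : X.Conn) :
    ∃ D : Finset V, D.card ≤ Fintype.card T + 2 * ((Fintype.card T + 2) / 12) ∧
      ∀ v, ∃ u ∈ D, X.graph.Adj v u := by
  classical
  have hM := X.aux_matching hc
  generalize hd : 2 * ((Fintype.card T + 2) / 12) = d at hM ⊢
  obtain ⟨M, hM⟩ := hM
  have hex : ∀ x, ∃! y, M.Adj x y := SimpleGraph.Subgraph.isPerfectMatching_iff.mp hM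
  choose m hm hmu using hex
  have hmm : ∀ x, m (m x) = x := fun x => (hmu (m x) x (hm x).symm).symm
  -- a choice of connecting edge for every unordered matched pair
  let rk := Fintype.equivFin T
  have hedge : ∀ t t', ∃ v, m (Sum.inl t) = Sum.inl t' → X.τ v = t ∧ X.τ (X.σ v) = t' := by
    intro t t'
    by_cases h : m (Sum.inl t) = Sum.inl t'
    · obtain ⟨v, hv⟩ := (M.adj_sub (hm (Sum.inl t))).2 t t' rfl h
      exact ⟨v, fun _ => hv⟩
    · obtain ⟨v, -⟩ := X.surj t
      exact ⟨v, fun h' => absurd h' h⟩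
  choose e he using hedge
  have hpair : ∀ t, ∃ a b, a ≠ b ∧ X.τ a = t ∧ X.τ b = t := by
    intro t
    obtain ⟨a, ha, b, hb, hab⟩ := one_lt_card.mp
      (by rw [X.fib t]; norm_num : 1 < (univ.filter (fun v => X.τ v = t)).card)
    exact ⟨a, b, hab, (mem_filter.mp ha).2, (mem_filter.mp hb).2⟩
  choose a b hab ha hb using hpair
  let f : T ⊕ Fin d → V := fun x => match x, m x with
    | Sum.inl t, Sum.inl t' => if rk t < rk t' then e t t' else X.σ (e t' t)
    | Sum.inl t, Sum.inr _ => a t
    | Sum.inr _, Sum.inl t => b t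
    | Sum.inr _, Sum.inr _ => a (X.τ (Classical.choice (by
        by_contra hV
        have h0 : Fintype.card V = 0 := by
          rw [Fintype.card_eq_zero_iff]; exact not_nonempty_iff.mp hV
        have := X.card_eq
        have hd0 : d = 0 := by omega
        rename_i j _
        exact (hd0 ▸ j : Fin 0).elim0)))
  refine ⟨univ.image f, card_image_le.trans (by simp), ?_⟩
  intro v
  cases h : m (Sum.inl (X.τ v)) with
  | inl t' =>
    have h' : m (Sum.inl t') = Sum.inl (X.τ v) := by rw [← h, hmm]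
    have hne : X.τ v ≠ t' := by
      intro e'
      exact (M.adj_sub (hm (Sum.inl (X.τ v)))).1 (by rw [h, e'])
    have hf : X.τ (f (Sum.inl (X.τ v))) = X.τ v ∧ f (Sum.inl t') = X.σ (f (Sum.inl (X.τ v))) := by
      simp only [f, h, h']
      by_cases hlt : rk (X.τ v) < rk t'
      · have : ¬ rk t' < rk (X.τ v) := fun h2 => lt_asymm hlt h2
        rw [if_pos hlt, if_neg this]
        exact ⟨(he _ _ h).1, rfl⟩
      · have : rk t' < rk (X.τ v) := by
          rcases lt_trichotomy (rk (X.τ v)) (rk t') with h2 | h2 | h2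
          · exact absurd h2 hlt
          · exact absurd (rk.injective h2) hne
          · exact h2
        rw [if_neg hlt, if_pos this]
        exact ⟨(he _ _ h').2, (X.inv _).symm⟩
    by_cases hv : v = f (Sum.inl (X.τ v))
    · refine ⟨f (Sum.inl t'), mem_image_of_mem _ (mem_univ _), Or.inr ?_⟩
      rw [hf.2, ← hv]
    · exact ⟨f (Sum.inl (X.τ v)), mem_image_of_mem _ (mem_univ _), Or.inl ⟨hv, hf.1.symm⟩⟩
  | inr j =>
    have h' : m (Sum.inr j) = Sum.inl (X.τ v) := by rw [← h, hmm]
    have h1 : f (Sum.inl (X.τ v)) = a (X.τ v) := by simp only [f, h]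
    have h2 : f (Sum.inr j) = b (X.τ v) := by simp only [f, h']
    by_cases hv : v = a (X.τ v)
    · refine ⟨f (Sum.inr j), mem_image_of_mem _ (mem_univ _), Or.inl ⟨?_, ?_⟩⟩
      · rw [h2]; intro e'; exact hab (X.τ v) (hv.symm.trans e')
      · rw [h2, hb]
    · refine ⟨f (Sum.inl (X.τ v)), mem_image_of_mem _ (mem_univ _), Or.inl ⟨?_, ?_⟩⟩
      · rw [h1]; exact hv
      · rw [h1, ha]

end Pool.Agent.Lib.MP_e52bc6_co
end

-- part Pool.Agent.Lib.MP_e52bc6_co.Construct
section

open Finset

namespace Pool.Agent.Lib.MP_e52bc6_co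

section Sum

variable {V T W T' : Type} [Fintype V] [DecidableEq T] [Fintype W] [DecidableEq T']
  [DecidableEq V] [DecidableEq W]

theorem card_filter_sum {A B : Type} [Fintype A] [Fintype B] (P : A ⊕ B → Prop) [DecidablePred P] :
    (univ.filter P).card = (univ.filter (fun a => P (Sum.inl a))).card +
      (univ.filter (fun b => P (Sum.inr b))).card := by
  simp only [card_filter]
  rw [Fintype.sum_sum_type]

omit [DecidableEq V] in
theorem Str.σ_inj (X : Str V T) {u v : V} (h : X.σ u = X.σ v) : u = v := by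
  rw [← X.inv u, h, X.inv]

omit [DecidableEq V] in
theorem Str.σ_ne (X : Str V T) (u : V) : X.σ u ≠ u := fun h => X.ne u (by rw [h])

def sumσ (X : Str V T) (Y : Str W T') (a : V) (p : W) : V ⊕ W → V ⊕ W
  | Sum.inl v => if v = a then Sum.inr p else if v = X.σ a then Sum.inr (Y.σ p)
      else Sum.inl (X.σ v)
  | Sum.inr w => if w = p then Sum.inl a else if w = Y.σ p then Sum.inl (X.σ a)
      else Sum.inr (Y.σ w)

theorem sumσ_cases (X : Str V T) (Y : Str W T') (a : V) (p : W) (x : V ⊕ W) :
    (x = Sum.inl a ∧ sumσ X Y a p x = Sum.inr p) ∨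
    (x = Sum.inl (X.σ a) ∧ sumσ X Y a p x = Sum.inr (Y.σ p)) ∨
    (x = Sum.inr p ∧ sumσ X Y a p x = Sum.inl a) ∨
    (x = Sum.inr (Y.σ p) ∧ sumσ X Y a p x = Sum.inl (X.σ a)) ∨
    (∃ v, v ≠ a ∧ v ≠ X.σ a ∧ x = Sum.inl v ∧ sumσ X Y a p x = Sum.inl (X.σ v)) ∨
    (∃ w, w ≠ p ∧ w ≠ Y.σ p ∧ x = Sum.inr w ∧ sumσ X Y a p x = Sum.inr (Y.σ w)) := by
  rcases x with v | w
  · by_cases h1 : v = a
    · left; simp [sumσ, h1]
    · by_cases h2 : v = X.σ a
      · right; left; subst h2; simp [sumσ, h1]
      · right; right; right; right; left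
        exact ⟨v, h1, h2, rfl, by simp [sumσ, h1, h2]⟩
  · by_cases h1 : w = p
    · right; right; left; simp [sumσ, h1]
    · by_cases h2 : w = Y.σ p
      · right; right; right; left; subst h2; simp [sumσ, h1]
      · right; right; right; right; right
        exact ⟨w, h1, h2, rfl, by simp [sumσ, h1, h2]⟩

def Str.sum (X : Str V T) (Y : Str W T') (a : V) (p : W) : Str (V ⊕ W) (T ⊕ T') where
  τ := Sum.map X.τ Y.τ
  σ := sumσ X Y a p
  inv := by
    intro x
    rcases sumσ_cases X Y a p x with ⟨h1, h2⟩ | ⟨h1, h2⟩ | ⟨h1, h2⟩ | ⟨h1, h2⟩ |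
      ⟨v, h3, h4, h1, h2⟩ | ⟨w, h3, h4, h1, h2⟩
    · rw [h2, h1]; simp [sumσ]
    · rw [h2, h1]; simp [sumσ, Y.σ_ne]
    · rw [h2, h1]; simp [sumσ]
    · rw [h2, h1]; simp [sumσ, X.σ_ne]
    · rw [h2, h1]
      have e1 : X.σ v ≠ a := fun e => h4 (by rw [← e, X.inv])
      have e2 : X.σ v ≠ X.σ a := fun e => h3 (X.σ_inj e)
      simp [sumσ, e1, e2, X.inv]
    · rw [h2, h1]
      have e1 : Y.σ w ≠ p := fun e => h4 (by rw [← e, Y.inv])
      have e2 : Y.σ w ≠ Y.σ p := fun e => h3 (Y.σ_inj e)
      simp [sumσ, e1, e2, Y.inv]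
  ne := by
    intro x
    rcases sumσ_cases X Y a p x with ⟨h1, h2⟩ | ⟨h1, h2⟩ | ⟨h1, h2⟩ | ⟨h1, h2⟩ |
      ⟨v, h3, h4, h1, h2⟩ | ⟨w, h3, h4, h1, h2⟩ <;> rw [h2, h1] <;> simp [X.ne, Y.ne]
  fib := by
    intro t
    rw [card_filter_sum]
    rcases t with t | t
    · simp [X.fib]
    · simp [Y.fib]

def Str.ConnM (Y : Str W T') (p : W) : Prop :=
  ∀ P : T' → Prop, (∀ v, v ≠ p → v ≠ Y.σ p → P (Y.τ v) → P (Y.τ (Y.σ v))) → ∀ t t', P t → P t'

theorem Str.sum_conn (X : Str V T) (Y : Str W T') (a : V) (p : W) (hX : X.Conn) (hY : Y.ConnM p) :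
    (X.sum Y a p).Conn := by
  intro P hP
  have hr : ∀ t t', P (Sum.inr t) → P (Sum.inr t') := by
    apply hY (fun t => P (Sum.inr t))
    intro w h1 h2 h
    have := hP (Sum.inr w) h
    simpa [Str.sum, sumσ, h1, h2] using this
  have e1 : P (Sum.inl (X.τ a)) → P (Sum.inr (Y.τ p)) := by
    intro h; simpa [Str.sum, sumσ] using hP (Sum.inl a) h
  have e2 : P (Sum.inr (Y.τ p)) → P (Sum.inl (X.τ a)) := by
    intro h; simpa [Str.sum, sumσ] using hP (Sum.inr p) h
  have e3 : P (Sum.inl (X.τ (X.σ a))) → P (Sum.inr (Y.τ (Y.σ p))) := by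
    intro h; simpa [Str.sum, sumσ, X.σ_ne] using hP (Sum.inl (X.σ a)) h
  have e4 : P (Sum.inr (Y.τ (Y.σ p))) → P (Sum.inl (X.τ (X.σ a))) := by
    intro h; simpa [Str.sum, sumσ, Y.σ_ne] using hP (Sum.inr (Y.σ p)) h
  have hl : ∀ t t', P (Sum.inl t) → P (Sum.inl t') := by
    apply hX (fun t => P (Sum.inl t))
    intro v h
    by_cases h1 : v = a
    · subst h1; exact e4 (hr _ _ (e1 h))
    · by_cases h2 : v = X.σ a
      · subst h2; rw [X.inv]; exact e2 (hr _ _ (e3 h))
      · have := hP (Sum.inl v) h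
        simpa [Str.sum, sumσ, h1, h2] using this
  rintro (t | t) (t' | t') h
  · exact hl _ _ h
  · exact hr _ _ (e1 (hl _ _ h))
  · exact hl _ _ (e2 (hr _ _ h))
  · exact hr _ _ h

end Sum

theorem connM_of_rank {W : Type} [Fintype W] {n : ℕ} (Y : Str W (Fin (n + 1))) (Q : W → Prop)
    (hQ : ∀ v, Q v → Q (Y.σ v))
    (h : ∀ t : Fin (n + 1), t = 0 ∨ ∃ v, Q v ∧ Y.τ (Y.σ v) = t ∧ Y.τ v < t)
    (P : Fin (n + 1) → Prop) (hP : ∀ v, Q v → P (Y.τ v) → P (Y.τ (Y.σ v))) :
    ∀ t t', P t → P t' := by
  have key : ∀ t, P 0 ↔ P t := by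
    intro t
    induction t using WellFoundedLT.induction with
    | ind t ih =>
      rcases h t with rfl | ⟨v, hv, rfl, hlt⟩
      · rfl
      · rw [ih _ hlt]
        refine ⟨hP v hv, fun h' => ?_⟩
        have := hP (Y.σ v) (hQ v hv) h'
        rwa [Y.inv] at this
  exact fun t t' ht => (key t').mp ((key t).mpr ht)

/-- data for the lower bound: `N` triangles and excess `e` -/
def Good (N e : ℕ) : Prop :=
  ∃ (V T ι : Type) (_ : Fintype V) (_ : Fintype T) (_ : Fintype ι) (_ : DecidableEq V)
    (_ : DecidableEq T) (_ : DecidableEq ι) (X : Str V T) (lab : T → Option ι),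
    Fintype.card T = N ∧ X.Conn ∧
    Fintype.card ι = (univ.filter (fun t => lab t = none)).card + e ∧
    (∀ j, Odd (univ.filter (fun t => lab t = some j)).card) ∧
    (∀ v i j, lab (X.τ v) = some i → lab (X.τ (X.σ v)) = some j → i = j) ∧
    ∃ a j, lab (X.τ a) = none ∧ lab (X.τ (X.σ a)) = some j

def prism : Str (Fin 6) (Fin 2) where
  τ := ![0, 0, 0, 1, 1, 1]
  σ := ![3, 4, 5, 0, 1, 2]
  inv := by decide
  ne := by decide
  fib := by decide

def ten : Str (Fin 30) (Fin 10) where
  τ := ![0, 0, 0, 1, 1, 1, 2, 2, 2, 3, 3, 3, 4, 4, 4, 5, 5, 5, 6, 6, 6, 7, 7, 7, 8, 8, 8, 9, 9, 9]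
  σ := ![3, 12, 21, 0, 6, 9, 4, 10, 11, 5, 7, 8, 1, 15, 18, 13, 19, 20, 14, 16, 17,
    2, 24, 27, 22, 28, 29, 23, 25, 26]
  inv := by decide
  ne := by decide
  fib := by decide

def twelve : Str (Fin 36) (Fin 12) where
  τ := ![0, 0, 0, 1, 1, 1, 2, 2, 2, 3, 3, 3, 4, 4, 4, 5, 5, 5, 6, 6, 6, 7, 7, 7, 8, 8, 8, 9, 9, 9,
    10, 10, 10, 11, 11, 11]
  σ := ![8, 3, 6, 1, 9, 18, 2, 27, 0, 4, 12, 15, 10, 16, 17, 11, 13, 14,
    5, 21, 24, 19, 25, 26, 20, 22, 23, 7, 30, 33, 28, 34, 35, 29, 31, 32]
  inv := by decide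
  ne := by decide
  fib := by decide

theorem good_two : Good 2 0 := by
  refine ⟨Fin 6, Fin 2, Fin 1, inferInstance, inferInstance, inferInstance, inferInstance,
    inferInstance, inferInstance, prism, ![none, some 0], by simp, ?_, by decide, by decide,
    by decide, 0, 0, by decide, by decide⟩
  intro P hP
  exact connM_of_rank prism (fun _ => True) (fun _ _ => trivial) (by decide) P (fun v _ => hP v)

theorem good_ten : Good 10 2 := by
  refine ⟨Fin 30, Fin 10, Fin 3, inferInstance, inferInstance, inferInstance, inferInstance,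
    inferInstance, inferInstance, ten,
    ![none, some 0, some 0, some 0, some 1, some 1, some 1, some 2, some 2, some 2],
    by simp, ?_, by decide, by decide, by decide, 0, 0, by decide, by decide⟩
  intro P hP
  exact connM_of_rank ten (fun _ => True) (fun _ _ => trivial) (by decide) P (fun v _ => hP v)

theorem prism_connM : prism.ConnM 0 := by
  intro P hP
  exact connM_of_rank prism (fun v => v ≠ 0 ∧ v ≠ prism.σ 0) (by decide) (by decide) P
    (fun v hv => hP v hv.1 hv.2)

theorem twelve_connM : twelve.ConnM 0 := by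
  intro P hP
  exact connM_of_rank twelve (fun v => v ≠ 0 ∧ v ≠ twelve.σ 0) (by decide) (by decide) P
    (fun v hv => hP v hv.1 hv.2)

theorem Good.add_two {N e : ℕ} (h : Good N e) : Good (N + 2) e := by
  obtain ⟨V, T, ι, _, _, _, _, _, _, X, lab, hN, hc, hι, hodd, hsep, a, j, ha, hj⟩ := h
  refine ⟨V ⊕ Fin 6, T ⊕ Fin 2, ι, inferInstance, inferInstance, inferInstance, inferInstance,
    inferInstance, inferInstance, X.sum prism a 0, Sum.elim lab (fun _ => some j),
    by simp [hN], X.sum_conn _ _ _ hc prism_connM, ?_, ?_, ?_, Sum.inl a, j, ha, ?_⟩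
  · rw [card_filter_sum, hι]
    simp only [Sum.elim_inl, Sum.elim_inr, reduceCtorEq, filter_false, card_empty, add_zero]
  · intro i
    rw [card_filter_sum]
    simp only [Sum.elim_inl, Sum.elim_inr]
    by_cases hij : j = i
    · simp only [hij, filter_true, card_univ, Fintype.card_fin]
      refine Odd.add_even ?_ (by decide)
      convert hodd i using 2
    · simp only [Option.some.injEq, hij, filter_false, card_empty, add_zero]
      convert hodd i using 2
  · intro x i k
    show Sum.elim lab _ (Sum.map X.τ prism.τ x) = _ →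
      Sum.elim lab _ (Sum.map X.τ prism.τ (sumσ X prism a 0 x)) = _ → _
    rcases sumσ_cases X prism a 0 x with ⟨h1, h2⟩ | ⟨h1, h2⟩ | ⟨h1, h2⟩ | ⟨h1, h2⟩ |
      ⟨v, h3, h4, h1, h2⟩ | ⟨w, h3, h4, h1, h2⟩ <;> rw [h2, h1] <;>
      simp only [Sum.map_inl, Sum.map_inr, Sum.elim_inl, Sum.elim_inr, ha, hj]
    · intro h; cases h
    · intro h h'; exact Option.some_injective _ (h.symm.trans h')
    · intro _ h; cases h
    · intro h h'; exact Option.some_injective _ (h.symm.trans h')
    · exact hsep v i k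
    · intro h h'; exact Option.some_injective _ (h.symm.trans h')
  · simp [Str.sum, sumσ]

def lab12 : Fin 12 → Option (Fin 4) :=
  ![some 0, none, none, some 1, some 1, some 1, some 2, some 2, some 2, some 3, some 3, some 3]

theorem Good.add_twelve {N e : ℕ} (h : Good N e) : Good (N + 12) (e + 2) := by
  obtain ⟨V, T, ι, _, _, _, _, _, _, X, lab, hN, hc, hι, hodd, hsep, a, j, ha, hj⟩ := h
  have h8 : lab12 (twelve.τ (twelve.σ 0)) = none := by decide
  have hsep' : ∀ v i j, lab12 (twelve.τ v) = some i → lab12 (twelve.τ (twelve.σ v)) = some j →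
      i = j := by decide
  have hodd' : ∀ j, Odd (univ.filter (fun t => lab12 t = some j)).card := by decide
  have hnone : (univ.filter (fun t => lab12 t = none)).card = 2 := by decide
  refine ⟨V ⊕ Fin 36, T ⊕ Fin 12, ι ⊕ Fin 4, inferInstance, inferInstance, inferInstance,
    inferInstance, inferInstance, inferInstance, X.sum twelve a 0,
    Sum.elim (fun t => (lab t).map Sum.inl) (fun t => (lab12 t).map Sum.inr),
    by simp [hN], X.sum_conn _ _ _ hc twelve_connM, ?_, ?_, ?_, Sum.inr 4, Sum.inr 1, ?_, ?_⟩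
  · rw [card_filter_sum]
    simp only [Sum.elim_inl, Sum.elim_inr, Option.map_eq_none_iff, hnone, Fintype.card_sum,
      Fintype.card_fin]
    omega
  · intro i
    rw [card_filter_sum]
    rcases i with i | i
    · simpa using hodd i
    · simpa using hodd' i
  · intro x i k
    show Sum.elim (fun t => (lab t).map Sum.inl) (fun t => (lab12 t).map Sum.inr)
        (Sum.map X.τ twelve.τ x) = _ →
      Sum.elim (fun t => (lab t).map Sum.inl) (fun t => (lab12 t).map Sum.inr)
        (Sum.map X.τ twelve.τ (sumσ X twelve a 0 x)) = _ → _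
    rcases sumσ_cases X twelve a 0 x with ⟨h1, h2⟩ | ⟨h1, h2⟩ | ⟨h1, h2⟩ | ⟨h1, h2⟩ |
      ⟨v, h3, h4, h1, h2⟩ | ⟨w, h3, h4, h1, h2⟩ <;> rw [h2, h1] <;>
      simp only [Sum.map_inl, Sum.map_inr, Sum.elim_inl, Sum.elim_inr, ha, h8, Option.map_none,
        Option.map_eq_some_iff]
    · intro h; cases h
    · intro _ h; cases h
    · intro _ h; cases h
    · intro h; cases h
    · rintro ⟨i', h, rfl⟩ ⟨k', h', rfl⟩; rw [hsep v i' k' h h']
    · rintro ⟨i', h, rfl⟩ ⟨k', h', rfl⟩; rw [hsep' w i' k' h h']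
  · rfl
  · rfl

theorem good_all (N : ℕ) (h2 : 2 ≤ N) (he : Even N) : Good N (2 * ((N + 2) / 12)) := by
  have h12 : ∀ k, Good (12 * k + 10) (2 * k + 2) := by
    intro k
    induction k with
    | zero => exact good_ten
    | succ k ih => exact ih.add_twelve
  have hadd : ∀ N e r, Good N e → Good (N + 2 * r) e := by
    intro N e r h
    induction r with
    | zero => exact h
    | succ r ih => exact ih.add_two
  obtain ⟨m, rfl⟩ := he
  by_cases h : m + m < 10
  · have := hadd 2 0 (m - 1) good_two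
    rw [show (m + m + 2) / 12 = 0 by omega]
    rwa [show 2 + 2 * (m - 1) = m + m by omega] at this
  · have := hadd _ _ ((m - 5) % 6) (h12 ((m - 5) / 6))
    rwa [show 12 * ((m - 5) / 6) + 10 + 2 * ((m - 5) % 6) = m + m by omega,
      show 2 * ((m - 5) / 6) + 2 = 2 * ((m + m + 2) / 12) by omega] at this

/-- transport of a structure along an equivalence of the vertex type -/
def Str.transport {V V' T : Type} [Fintype V] [Fintype V'] [DecidableEq T] (X : Str V T)
    (e : V' ≃ V) : Str V' T where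
  τ := fun v => X.τ (e v)
  σ := fun v => e.symm (X.σ (e v))
  inv := by intro v; simp [X.inv]
  ne := by intro v; simpa using X.ne (e v)
  fib := by
    intro t
    rw [← X.fib t]
    exact card_bij (fun v _ => e v) (by simp) (by simp)
      (fun v hv => ⟨e.symm v, by simpa using hv, by simp⟩)

theorem exists_extremal (n : ℕ) (hn : 0 < n) (h6 : 6 ∣ n) :
    ∃ (T : Type) (_ : DecidableEq T) (X : Str (Fin n) T), X.Conn ∧
      ∀ D : Finset (Fin n), (∀ v, ∃ u ∈ D, X.graph.Adj v u) →
        n / 3 + 2 * ((n + 6) / 36) ≤ D.card := by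
  obtain ⟨m, rfl⟩ := h6
  obtain ⟨V, T, ι, _, _, _, _, _, _, X, lab, hN, hc, hι, hodd, hsep, -⟩ :=
    good_all (2 * m) (by omega) (even_two_mul m)
  have hV : Fintype.card V = 6 * m := by rw [X.card_eq, hN]; ring
  let e : Fin (6 * m) ≃ V := (Fintype.equivFinOfCardEq hV).symm
  refine ⟨T, inferInstance, X.transport e, ?_, ?_⟩
  · intro P hP
    apply hc P
    intro v hv
    have := hP (e.symm v)
    simp only [Str.transport, Equiv.apply_symm_apply] at this
    exact this hv
  · intro D hD
    have := (X.transport e).lower lab hodd ?_ D hD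
    · omega
    · intro v i j
      simp only [Str.transport, Equiv.apply_symm_apply]
      exact hsep _ i j

end Pool.Agent.Lib.MP_e52bc6_co
end

-- part Pool.Agent.Lib.MP_e52bc6_co.Struct
section

open Finset

namespace Pool.Agent.Lib.MP_e52bc6_co

variable {V : Type} [Fintype V]

omit [Fintype V] in
theorem claw_of {G : SimpleGraph V} {v a b c : V} (ha : G.Adj v a) (hb : G.Adj v b)
    (hc : G.Adj v c) (hab : a ≠ b) (hac : a ≠ c) (hbc : b ≠ c) (nab : ¬ G.Adj a b)
    (nac : ¬ G.Adj a c) (nbc : ¬ G.Adj b c) :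
    Nonempty (completeBipartiteGraph (Fin 1) (Fin 3) ↪g G) := by
  have nba : ¬ G.Adj b a := fun h => nab h.symm
  have nca : ¬ G.Adj c a := fun h => nac h.symm
  have ncb : ¬ G.Adj c b := fun h => nbc h.symm
  refine ⟨⟨⟨Sum.elim (fun _ => v) ![a, b, c], ?_⟩, ?_⟩⟩
  · rintro (x | x) (y | y) h
    · rw [Subsingleton.elim x y]
    · fin_cases y <;> simp_all
    · fin_cases x <;> simp_all
    · fin_cases x <;> fin_cases y <;> simp_all
  · intro x y
    show G.Adj (Sum.elim (fun _ => v) ![a, b, c] x) (Sum.elim (fun _ => v) ![a, b, c] y) ↔ _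
    rcases x with (x | x) <;> rcases y with (y | y)
    · simp
    · fin_cases y <;> simp [ha, hb, hc]
    · fin_cases x <;> simp [ha.symm, hb.symm, hc.symm]
    · fin_cases x <;> fin_cases y <;> simp [nab, nac, nbc, nba, nca, ncb]

omit [Fintype V] in
theorem diamond_of {G : SimpleGraph V} {x y z w : V} (hxy : x ≠ y) (nxy : ¬ G.Adj x y)
    (hxz : G.Adj x z) (hxw : G.Adj x w) (hyz : G.Adj y z) (hyw : G.Adj y w) (hzw : G.Adj z w) :
    Nonempty ((⊤ : SimpleGraph (Fin 4)).deleteEdges {s(0, 1)} ↪g G) := by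
  have nyx : ¬ G.Adj y x := fun h => nxy h.symm
  have h1 := hxz.ne
  have h2 := hxw.ne
  have h3 := hyz.ne
  have h4 := hyw.ne
  have h5 := hzw.ne
  refine ⟨⟨⟨![x, y, z, w], ?_⟩, ?_⟩⟩
  · intro i j h
    fin_cases i <;> fin_cases j <;> simp_all [eq_comm]
  · intro i j
    show G.Adj (![x, y, z, w] i) (![x, y, z, w] j) ↔ _
    fin_cases i <;> fin_cases j <;>
      simp [nxy, nyx, hxz, hxw, hyz, hyw, hzw, hxz.symm, hxw.symm, hyz.symm, hyw.symm, hzw.symm]

theorem local_struct {G : SimpleGraph V} (hconn : G.Connected)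
    (hcub : ∀ v, (G.neighborSet v).ncard = 3)
    (hclaw : IsEmpty (completeBipartiteGraph (Fin 1) (Fin 3) ↪g G))
    (hdia : IsEmpty ((⊤ : SimpleGraph (Fin 4)).deleteEdges {s(0, 1)} ↪g G))
    (hn : 4 < Fintype.card V) (v : V) :
    ∃ a b c, a ≠ b ∧ a ≠ c ∧ b ≠ c ∧ (∀ u, G.Adj v u ↔ u = a ∨ u = b ∨ u = c) ∧
      G.Adj a b ∧ ¬ G.Adj a c ∧ ¬ G.Adj b c := by
  classical
  obtain ⟨a, b, c, hab, hac, hbc, hN⟩ := Set.ncard_eq_three.mp (hcub v)
  have hN' : ∀ u, G.Adj v u ↔ u = a ∨ u = b ∨ u = c := by
    intro u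
    rw [← SimpleGraph.mem_neighborSet, hN]; simp
  have ha : G.Adj v a := (hN' a).mpr (by simp)
  have hb : G.Adj v b := (hN' b).mpr (by simp)
  have hc : G.Adj v c := (hN' c).mpr (by simp)
  have nd : ∀ {x y z : V}, G.Adj v x → G.Adj v y → G.Adj v z → x ≠ y → G.Adj x z → G.Adj y z →
      G.Adj x y := by
    intro x y z hx hy hz hxy hxz hyz
    by_contra nxy
    exact hdia.false (diamond_of hxy nxy hx.symm hxz hy.symm hyz hz).some
  by_cases h1 : G.Adj a b <;> by_cases h2 : G.Adj a c <;> by_cases h3 : G.Adj b c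
  · exfalso
    have full : ∀ x p q r : V, p ≠ q → p ≠ r → q ≠ r → G.Adj x p → G.Adj x q → G.Adj x r →
        ∀ u, G.Adj x u → u = p ∨ u = q ∨ u = r := by
      intro x p q r hpq hpr hqr hp hq hr u hu
      have hsub : ({p, q, r} : Set V) ⊆ G.neighborSet x := by
        intro y hy
        simp only [Set.mem_insert_iff, Set.mem_singleton_iff] at hy
        rcases hy with rfl | rfl | rfl <;> assumption
      have hc3 : ({p, q, r} : Set V).ncard = 3 := Set.ncard_eq_three.mpr ⟨p, q, r, hpq, hpr, hqr, rfl⟩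
      have := Set.eq_of_subset_of_ncard_le hsub (by rw [hc3, hcub]) (Set.toFinite _)
      have hu' : u ∈ G.neighborSet x := hu
      rw [← this] at hu'
      simpa using hu'
    have closed : ∀ x y, G.Adj x y → x ∈ ({v, a, b, c} : Finset V) →
        y ∈ ({v, a, b, c} : Finset V) := by
      intro x y hxy hx
      simp only [mem_insert, mem_singleton] at hx ⊢
      rcases hx with rfl | rfl | rfl | rfl
      · have := (hN' y).mp hxy; tauto
      · have := full x v b c hb.ne hc.ne hbc ha.symm h1 h2 y hxy; tauto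
      · have := full x v a c ha.ne hc.ne hac hb.symm h1.symm h3 y hxy; tauto
      · have := full x v a b ha.ne hb.ne hab hc.symm h2.symm h3.symm y hxy; tauto
    have hall : ∀ x y, G.Reachable x y → x ∈ ({v, a, b, c} : Finset V) →
        y ∈ ({v, a, b, c} : Finset V) := by
      rintro x y ⟨w⟩
      induction w with
      | nil => exact id
      | cons h _ ih => exact fun hx => ih (closed _ _ h hx)
    have hsub : (univ : Finset V) ⊆ {v, a, b, c} :=
      fun y _ => hall v y (hconn.preconnected v y) (by simp)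
    have := (card_le_card hsub).trans card_le_four
    rw [card_univ] at this
    omega
  · exact absurd (nd hb hc ha hbc h1.symm h2.symm) h3
  · exact absurd (nd ha hc hb hac h1 h3.symm) h2
  · exact ⟨a, b, c, hab, hac, hbc, hN', h1, h2, h3⟩
  · exact absurd (nd ha hb hc hab h2 h3) h1
  · exact ⟨a, c, b, hac, hab, hbc.symm, fun u => by rw [hN']; tauto, h2, h1, fun h => h3 h.symm⟩
  · exact ⟨b, c, a, hbc, hab.symm, hac.symm, fun u => by rw [hN']; tauto, h3,
      fun h => h1 h.symm, fun h => h2 h.symm⟩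
  · exact (hclaw.false (claw_of ha hb hc hab hac hbc h1 h2 h3).some).elim

theorem exists_str {G : SimpleGraph V} (hconn : G.Connected)
    (hcub : ∀ v, (G.neighborSet v).ncard = 3)
    (hclaw : IsEmpty (completeBipartiteGraph (Fin 1) (Fin 3) ↪g G))
    (hdia : IsEmpty ((⊤ : SimpleGraph (Fin 4)).deleteEdges {s(0, 1)} ↪g G))
    (hn : 4 < Fintype.card V) :
    ∃ (T : Type) (_ : Fintype T) (_ : DecidableEq T) (X : Str V T), X.graph = G := by
  classical
  choose a b c hab hac hbc hN h1 h2 h3 using local_struct hconn hcub hclaw hdia hn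
  have ha : ∀ v, G.Adj v (a v) := fun v => (hN v _).mpr (by simp)
  have hb : ∀ v, G.Adj v (b v) := fun v => (hN v _).mpr (by simp)
  have hc : ∀ v, G.Adj v (c v) := fun v => (hN v _).mpr (by simp)
  let r : V → V → Prop := fun u v => u = v ∨ (G.Adj u v ∧ ∃ w, G.Adj u w ∧ G.Adj v w)
  have hr : ∀ v u, r v u ↔ u = v ∨ u = a v ∨ u = b v := by
    intro v u
    constructor
    · rintro (h | ⟨h, w, hw1, hw2⟩)
      · exact Or.inl h.symm
      · rcases (hN v u).mp h with h | h | h
        · tauto
        · tauto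
        · exfalso
          subst h
          rcases (hN v w).mp hw1 with h | h | h
          · exact h2 v (h ▸ hw2.symm)
          · exact h3 v (h ▸ hw2.symm)
          · exact hw2.ne h.symm
    · rintro (h | h | h)
      · exact Or.inl h.symm
      · exact Or.inr ⟨h ▸ ha v, b v, hb v, h ▸ h1 v⟩
      · exact Or.inr ⟨h ▸ hb v, a v, ha v, h ▸ (h1 v).symm⟩
  have rsymm : ∀ {u v}, r u v → r v u := by
    rintro u v (h | ⟨h, w, hw1, hw2⟩)
    · exact Or.inl h.symm
    · exact Or.inr ⟨h.symm, w, hw2, hw1⟩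
  have rtrans : ∀ {u v w}, r u v → r v w → r u w := by
    intro u v w huv hvw
    rcases (hr v u).mp (rsymm huv) with h | h | h <;> rcases (hr v w).mp hvw with h' | h' | h'
    · exact Or.inl (h.trans h'.symm)
    · rw [h]; exact hvw
    · rw [h]; exact hvw
    · rw [h']; exact huv
    · exact Or.inl (h.trans h'.symm)
    · rw [h, h']; exact Or.inr ⟨h1 v, v, (ha v).symm, (hb v).symm⟩
    · rw [h']; exact huv
    · rw [h, h']; exact Or.inr ⟨(h1 v).symm, v, (hb v).symm, (ha v).symm⟩
    · exact Or.inl (h.trans h'.symm)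
  let s : Setoid V := ⟨r, fun _ => Or.inl rfl, rsymm, rtrans⟩
  have hrc : ∀ v, ¬ r v (c v) := by
    intro v h
    rcases (hr v _).mp h with h | h | h
    · exact (hc v).ne h.symm
    · exact hac v h.symm
    · exact hbc v h.symm
  have hq : ∀ u v, Quotient.mk s u = Quotient.mk s v ↔ r u v := fun u v => Quotient.eq
  refine ⟨Quotient s, inferInstance, inferInstance,
    ⟨Quotient.mk s, c, ?_, ?_, ?_⟩, ?_⟩
  · intro v
    rcases (hN (c v) v).mp (hc v).symm with h | h | h
    · exact absurd (rsymm ((hr (c v) v).mpr (Or.inr (Or.inl h)))) (hrc v)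
    · exact absurd (rsymm ((hr (c v) v).mpr (Or.inr (Or.inr h)))) (hrc v)
    · exact h.symm
  · intro v h
    exact hrc v (rsymm ((hq _ _).mp h))
  · intro t
    obtain ⟨v, rfl⟩ := Quotient.exists_rep t
    rw [card_eq_three]
    refine ⟨v, a v, b v, (ha v).ne, (hb v).ne, hab v, ?_⟩
    ext u
    simp only [mem_filter, mem_univ, true_and, mem_insert, mem_singleton]
    rw [← hr, hq]
    exact ⟨rsymm, rsymm⟩
  · ext u v
    rw [Str.adj]
    simp only [hq]
    rw [hr, hN]
    constructor
    · rintro (⟨h, h' | h' | h'⟩ | h)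
      · exact absurd h'.symm h
      all_goals tauto
    · rintro (h | h | h)
      · exact Or.inl ⟨h ▸ (ha u).ne, Or.inr (Or.inl h)⟩
      · exact Or.inl ⟨h ▸ (hb u).ne, Or.inr (Or.inr h)⟩
      · exact Or.inr h

end Pool.Agent.Lib.MP_e52bc6_co
end
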